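import Mathlib
import Pool.Agent.Helper82.ETN.Num3
import Pool.Agent.Helper83.ET.AllCodes

/-!
# E-T (MP_12a1af_nt), project T*: the multiplicities are small against the near threshold
-/

namespace Pool.Agent.Helper16.ETX

open Pool.Agent.Helper29.ETK
open Pool.Agent.Helper82.ETN (CC_pos one_lt_CC two_pow_kk_le)

/-- lower bound of the near threshold by the epochs below -/
lemma gth_ge_ep {c s K : ℕ} (hc : 1 ≤ c) (hs : s ≤ K) (he : 4 ≤ ep c s) :
    CC c ^ (ep c s - 3) ≤ gth c K * (2 ^ 14 * (3 * ep c s + 4)) := by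
  have hlg : lg c s ≤ lg c K := Nat.log_mono_right hs
  set e := ep c s with hep
  have h3 : 3 * e ≤ lg c s := by rw [hep]; unfold ep; omega
  obtain ⟨j, hj⟩ : ∃ j, epo c K - 1 = (e - 2) + j := by
    refine ⟨epo c K - 1 - (e - 2), ?_⟩
    unfold epo
    omega
  have h1 : CC c ^ (e - 3) * CC c ^ j ≤ gth c K * 2 ^ (10 + kk (epo c K - 1)) := by
    unfold gth Gq CC
    rw [← pow_add, ← pow_mul, ← pow_add]
    refine Nat.pow_le_pow_right two_pos ?_
    have : c * (e - 3 + j) = c * (epo c K - 1 - 1) := by congr 1; omega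
    omega
  have h2 : 2 ^ (10 + kk (epo c K - 1)) ≤ 2 ^ 14 * (3 * e + 4) * CC c ^ j := by
    rw [pow_add]
    have h4 := two_pow_kk_le (epo c K - 1)
    rw [hj] at h4
    have h5 : j + 1 ≤ CC c ^ j := by
      have : 2 ^ j ≤ CC c ^ j := Nat.pow_le_pow_left (one_lt_CC hc) j
      have := Nat.lt_two_pow_self (n := j)
      omega
    calc 2 ^ 10 * 2 ^ kk (epo c K - 1) ≤ 2 ^ 10 * (16 * (3 * (e - 2 + j) + 10)) := by
          rw [hj]
          exact Nat.mul_le_mul_left _ h4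
      _ ≤ 2 ^ 10 * (16 * ((3 * e + 4) * (j + 1))) := by
          have e1 : (3 * e + 4) * (j + 1) = 3 * e + 4 + (3 * e + 4) * j := by ring
          have e2 : 4 * j ≤ (3 * e + 4) * j := Nat.mul_le_mul_right _ (by omega)
          omega
      _ ≤ 2 ^ 10 * (16 * ((3 * e + 4) * CC c ^ j)) :=
          Nat.mul_le_mul_left _ (Nat.mul_le_mul_left _ (Nat.mul_le_mul_left _ h5))
      _ = _ := by ring
  have h6 : 0 < CC c ^ j := pow_pos (CC_pos c) _
  refine Nat.le_of_mul_le_mul_right ?_ h6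
  calc CC c ^ (e - 3) * CC c ^ j ≤ gth c K * 2 ^ (10 + kk (epo c K - 1)) := h1
    _ ≤ gth c K * (2 ^ 14 * (3 * e + 4) * CC c ^ j) := Nat.mul_le_mul_left _ h2
    _ = _ := by ring

open Pool.Agent.Helper83.ET (BTh)

/-- **the multiplicities are small against the near threshold** -/
theorem BTh_le {c s K : ℕ} (hc : 20 ≤ c) (hs : s ≤ K) (he : 20 ≤ ep c s) :
    2 ^ 8 * BTh (CC c) (ep c s) ≤ 2 ^ (gth c K / (16 * CC c)) := by
  have h1 := gth_ge_ep (by omega) hs (by omega : 4 ≤ ep c s)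
  set e := ep c s
  have hC : 2 ^ 20 ≤ CC c := Nat.pow_le_pow_right (by norm_num) hc
  have hC0 : 0 < CC c := CC_pos c
  unfold BTh
  rw [← pow_add]
  refine Nat.pow_le_pow_right two_pos ?_
  rw [Nat.le_div_iff_mul_le (Nat.mul_pos (by norm_num) hC0)]
  -- `(8 + C ^ (e - 5) / (e + 1)) * (16 C) * (2 ^ 14 (3 e + 4)) ≤ C ^ (e - 3)`
  refine Nat.le_of_mul_le_mul_right (c := 2 ^ 14 * (3 * e + 4)) ?_
    (Nat.mul_pos (by norm_num) (Nat.succ_pos _))
  refine le_trans ?_ h1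
  set q := CC c ^ (e - 5) / (e + 1) with hq
  have h2 : q * (e + 1) ≤ CC c ^ (e - 5) := Nat.div_mul_le_self _ _
  have h3 : CC c ^ (e - 3) = CC c ^ (e - 5) * CC c * CC c := by
    rw [← pow_succ, ← pow_succ]; congr 1; omega
  have h4 : 16 * (3 * e + 4) ≤ CC c ^ (e - 5) := by
    have a1 : 2 ^ (20 * (e - 5)) ≤ CC c ^ (e - 5) := by
      rw [pow_mul]
      exact Nat.pow_le_pow_left hC _
    have a2 : 2 ^ (8 + (e - 5)) ≤ 2 ^ (20 * (e - 5)) := Nat.pow_le_pow_right two_pos (by omega)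
    have a3 : e - 5 < 2 ^ (e - 5) := Nat.lt_two_pow_self
    rw [pow_add] at a2
    omega
  rw [h3]
  have h5 : (8 + q) * (3 * e + 4) ≤ 4 * CC c ^ (e - 5) := by
    have b1 : q * 2 ≤ q * (e + 1) := Nat.mul_le_mul_left _ (by omega)
    calc (8 + q) * (3 * e + 4) = 8 * (3 * e + 4) + 3 * (q * (e + 1)) + q := by ring
      _ ≤ 4 * CC c ^ (e - 5) := by omega
  calc (8 + q) * (16 * CC c) * (2 ^ 14 * (3 * e + 4))
      = ((8 + q) * (3 * e + 4)) * (2 ^ 18 * CC c) := by ring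
    _ ≤ (4 * CC c ^ (e - 5)) * (2 ^ 18 * CC c) := Nat.mul_le_mul_right _ h5
    _ = (CC c ^ (e - 5) * CC c) * 2 ^ 20 := by ring
    _ ≤ _ := Nat.mul_le_mul_left _ hC

end Pool.Agent.Helper16.ETX
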