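import Mathlib
import Pool.Agent.ETS.FarDefs
import Pool.Agent.Helper5.ETP.CrossZ
import Pool.Agent.Helper83.ET.NearMk
import Pool.Agent.Helper86.ET.CutR
import Pool.Agent.Helper16.ETX.Num

/-!
# E-T (MP_12a1af_nt), project T*: far pairs, a `P` run of `K` against an `R` zone of `K'`
-/

open Finset

namespace Pool.Agent.Helper16.ETX

open Pool.Agent.ETS
open Pool.Agent.ETS.RC (RBase zoneOf_top zoneOf_reg desc_top card_zone_R)
open Pool.Agent.Helper29.ETK (Kid kid wb ep Wd av ab ag ak CC Hb wcomp gth j0 lg)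
open Pool.Agent.ETP (isPT phiV)
open Pool.Agent.Helper5.ETP

/-- **What the crossing pairs use about the codes.**  `B e` is a bound of the multiplicities. -/
structure CrossCodes (C : Codes) (c : ℕ) (B : ℕ → ℕ) : Prop where
  W : ∀ e, C.W e = CC c ^ e
  P : ∀ p, PCode (C.X p) (C.P p)
  base : ∀ e, 20 ≤ e → RBase C e
  two : ∀ e, 20 ≤ e → 2 ≤ B e
  TQP : ∀ e, 20 ≤ e → ∀ l q r, q + C.W e ≤ l → l ≤ 50 * CC c ^ (e + 1) →
    (C.T e ∩ QP (C.X (e+1)) (C.P (e+1)) (C.W e) l q r).card ≤ B e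
  ThQP : ∀ e, 20 ≤ e → ∀ l q r, q + C.W e ≤ l → l ≤ 50 * CC c ^ (e + 1) →
    (C.Th e ∩ QP (C.X (e+1)) (C.P (e+1)) (C.W e) l q r).card ≤ B e
  mTT : ∀ e, 20 ≤ e → SumB (C.W e) (C.T e) (C.T e) (B e)
  mTTh : ∀ e, 20 ≤ e → SumB (C.W e) (C.T e) (C.Th e) (B e)

lemma sumB_of_mult {W r : ℕ} {X X' : Finset ℕ} (h : RC.Mult W r X X') : SumB W X X' r := by
  intro s
  refine (card_le_card ?_).trans (h (s % 2 ^ W))
  intro q hq
  rw [mem_filter] at hq ⊢
  exact ⟨hq.1, hq.2⟩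

lemma crossCodes_mk {c : ℕ} (hc : 20 ≤ c) (TK : ℕ → Finset ℕ) :
    CrossCodes (Helper83.ET.mk (CC c) TK) c (Helper83.ET.BTh (CC c)) where
  W := fun _ => rfl
  P := fun p => Helper83.ET.mk_pcode p
  base := fun _ he => Helper83.ET.mk_RBase (Helper83.ET.CC_ge hc) (Helper83.ET.CC_even hc) he
  two := fun e he => by
    have h1 := Helper83.ET.mk_RHyp (TK := TK) (Helper83.ET.CC_ge hc) (Helper83.ET.CC_even hc) he
    have h2 : 2 ≤ Helper83.ET.BT (CC c) e := by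
      have := Helper83.ET.one_le_BT (CC c) e (Nat.one_le_two_pow)
      unfold Helper83.ET.BT at this ⊢
      omega
    exact h2.trans h1.rB
  TQP := fun e he l q r h1 h2 =>
    (Helper83.ET.T_QP (Helper83.ET.CC_ge hc) (Helper83.ET.CC_even hc) he r h1 h2).trans
      (Helper83.ET.BT_le_BTh (Helper83.ET.CC_ge hc) he)
  ThQP := fun e he l q r h1 h2 =>
    Helper83.ET.Th_QP (Helper83.ET.CC_ge hc) (Helper83.ET.CC_even hc) he r h1 h2
  mTT := fun e he c' => (sumB_of_mult (Helper83.ET.mk_RHyp (TK := TK) (Helper83.ET.CC_ge hc)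
    (Helper83.ET.CC_even hc) he).mTT c').trans
      (Helper83.ET.BT_le_BTh (Helper83.ET.CC_ge hc) he)
  mTTh := fun e he c' => (sumB_of_mult (Helper83.ET.mk_RHyp (TK := TK) (Helper83.ET.CC_ge hc)
    (Helper83.ET.CC_even hc) he).mTTh c').trans
      (Helper83.ET.BT_le_BTh (Helper83.ET.CC_ge hc) he)

section

variable {C : Codes} {c : ℕ} {B : ℕ → ℕ}

/-- both families: `QPB` for `T` and `Theta` -/
structure QPB2 (C : Codes) (p e l q B : ℕ) : Prop where
  T : QPB (C.X p) (C.P p) (C.W e) l q B (C.T e)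
  Th : QPB (C.X p) (C.P p) (C.W e) l q B (C.Th e)

/-- short known part -/
lemma qpb2_short (hX : CrossCodes C c B) {e l q : ℕ} (he : 20 ≤ e) (h1 : q + C.W e ≤ l)
    (h2 : l ≤ 50 * CC c ^ (e + 1)) : QPB2 C (e + 1) e l q (B e) := by
  constructor
  · intro r A h3 h4
    exact (card_le_card (subset_inter h3 h4)).trans (hX.TQP e he l q r h1 h2)
  · intro r A h3 h4
    exact (card_le_card (subset_inter h3 h4)).trans (hX.ThQP e he l q r h1 h2)

/-- the digits below the block determine the variable -/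
lemma qpb2_low (hX : CrossCodes C c B) {p e l q : ℕ} (he : 20 ≤ e) (h1 : q + C.W e ≤ l)
    (h2 : (l + 1) / 2 ≤ q) : QPB2 C p e l q (B e) := by
  have h3 : 2 ^ ((l + 1) / 2 - q) + 1 ≤ B e := by
    have : (l + 1) / 2 - q = 0 := by omega
    rw [this]
    exact hX.two e he
  constructor
  · intro r A _ h4
    exact ((card_le_card h4).trans (card_QP_low (hX.P p) h1)).trans h3
  · intro r A _ h4
    exact ((card_le_card h4).trans (card_QP_low (hX.P p) h1)).trans h3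

/-- block types -/
def IsB : Desc → Prop
  | .RS _ _ _ => True
  | .RT _ _ => True
  | .RTh _ _ => True
  | _ => False

/-- **crossing count**: a `P` type zone against a zone with a block inside the known range -/
lemma cross_count {t : ℕ} (hW : ∀ e, C.W e = CC c ^ e) {d' : Desc} {r0' r1' : Reg}
    (hb : RBase C (ep c d'.lo)) (hd' : IsDesc c t d' r0' r1') (hB' : IsB d')
    {Z Z' : Zone} (hZ' : ZoneOf C r0' r1' Z') {p l f g q K K' n M : ℕ}
    (hS : PRep (C.X p) (C.P p) f l g Z.S) (hok : Zone.Ok Z) (hm : f + l ≤ Z.top)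
    (hq : q + C.W (ep c d'.lo) ≤ l) (hlo : d'.lo = f + q) (hv : Z.top ≤ d'.hi c)
    (hQ : QPB2 C p (ep c d'.lo) l q M) (hK : Z.top ≤ K) (hK' : d'.hi c ≤ K') :
    (zcons K K' n Z Z').card ≤ (2 * M) * 2 ^ ((d'.hi c - d'.Ip c) / 2) := by
  have hR : d'.IsR := by cases d' <;> first | exact trivial | exact hB'.elim
  have htop : Z'.top = d'.hi c := by rw [zoneOf_top hZ', desc_top hd' hR]
  have h0 : (zcons K K' n Z Z').card ≤ (pmod Z.top n Z.S Z'.S).card :=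
    zcons_card_le_pmod hK (by rw [htop]; exact hK') le_rfl (by rw [htop]; exact hv)
  refine h0.trans ?_
  have hY : ∀ l', (C.Y l').card ≤ 2 ^ (l' / 2) := fun l' => by
    rw [hb.hY]; exact RC.card_Yq_le _
  have hWW : ∀ s, C.W (ep c s) = Wd c s := fun s => hW _
  cases d' with
  | P g e => exact hB'.elim
  | PT g b => exact hB'.elim
  | R b v => exact hB'.elim
  | RS g' b v =>
    obtain ⟨e0, e1, -⟩ := hd'
    simp only [Desc.lo, Desc.hi, Desc.Ip] at *
    subst e0 e1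
    obtain ⟨a, κ, κ₂, -, rfl⟩ := hZ'
    refine (cross_RS hS hok hm hq hlo (by exact hv) hb.hT hQ.T).trans ?_
    rw [mul_comm]
    refine Nat.mul_le_mul_left _ ?_
    refine (hY _).trans (Nat.pow_le_pow_right two_pos ?_)
    rw [hWW]
    simp only [Reg.top]
    exact le_rfl
  | RT b v =>
    obtain ⟨e1, e0, -⟩ := hd'
    simp only [Desc.lo, Desc.hi, Desc.Ip] at *
    subst e1
    obtain ⟨a, κ, -, rfl⟩ := zoneOf_reg hZ' e0
    refine (cross_RT hS hok hm hq hlo hv hb.hT hQ.T).trans ?_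
    rw [mul_comm]
    refine Nat.mul_le_mul (by omega) ?_
    refine (hY _).trans (Nat.pow_le_pow_right two_pos ?_)
    rw [hWW, Nat.sub_sub]
  | RTh b v =>
    obtain ⟨e1, e0, -⟩ := hd'
    simp only [Desc.lo, Desc.hi, Desc.Ip] at *
    subst e1
    obtain ⟨a, κ, -, rfl⟩ := zoneOf_reg hZ' e0
    refine (cross_RTh hS hok hm hq hlo hv hb.hTh hQ.Th).trans ?_
    rw [mul_comm]
    refine Nat.mul_le_mul (by omega) ?_
    refine (hY _).trans (Nat.pow_le_pow_right two_pos ?_)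
    rw [hWW, Nat.sub_sub]

/-- **same block**: `PT` against a zone with the block at the same place -/
lemma same_count (hX : CrossCodes C c B) {t : ℕ} {d' : Desc} {r0' r1' : Reg}
    (he : 20 ≤ ep c d'.lo) (hd' : IsDesc c t d' r0' r1') (hB' : IsB d')
    {Z' : Zone} (hZ' : ZoneOf C r0' r1' Z') {p g a κ K K' n : ℕ} (hg : g ≤ d'.lo)
    (ha : a < 2 ^ g) (hv : d'.lo + C.W (ep c d'.lo) ≤ d'.hi c) (hK : d'.hi c ≤ K)
    (hK' : d'.hi c ≤ K') :
    (zcons K K' n (zreg C (.PT p (ep c d'.lo) g d'.lo) a κ) Z').card ≤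
      (2 * B (ep c d'.lo)) * 2 ^ ((d'.hi c - d'.Ip c) / 2) := by
  have hb := hX.base _ he
  have hR : d'.IsR := by cases d' <;> first | exact trivial | exact hB'.elim
  have htop : Z'.top = d'.hi c := by rw [zoneOf_top hZ', desc_top hd' hR]
  have h0 : (zcons K K' n (zreg C (.PT p (ep c d'.lo) g d'.lo) a κ) Z').card ≤
      (pmod (d'.lo + C.W (ep c d'.lo)) n (zreg C (.PT p (ep c d'.lo) g d'.lo) a κ).S Z'.S).card :=
    zcons_card_le_pmod (show d'.lo + C.W (ep c d'.lo) ≤ K by omega) (by rw [htop]; exact hK')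
      le_rfl (by rw [htop]; exact hv)
  refine h0.trans ?_
  have hY : ∀ l', (C.Y l').card ≤ 2 ^ (l' / 2) := fun l' => by
    rw [hb.hY]; exact RC.card_Yq_le _
  have hWW : ∀ s, C.W (ep c s) = Wd c s := fun s => hX.W _
  cases d' with
  | P g e => exact hB'.elim
  | PT g b => exact hB'.elim
  | R b v => exact hB'.elim
  | RS g' b v =>
    obtain ⟨e0, e1, -⟩ := hd'
    simp only [Desc.lo, Desc.hi, Desc.Ip] at *
    subst e0 e1
    obtain ⟨a', κ', κ₂, -, rfl⟩ := hZ'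
    refine (same_RS (hX.P p) hg ha (hX.mTT _ he)).trans ?_
    rw [mul_comm]
    refine Nat.mul_le_mul (by omega) ?_
    refine (hY _).trans (Nat.pow_le_pow_right two_pos ?_)
    rw [hWW]
    simp only [Reg.top]
    exact le_rfl
  | RT b v =>
    obtain ⟨e1, e0, -⟩ := hd'
    simp only [Desc.lo, Desc.hi, Desc.Ip] at *
    subst e1
    obtain ⟨a', κ', -, rfl⟩ := zoneOf_reg hZ' e0
    refine (same_RT (hX.P p) hg hv ha (hX.mTT _ he)).trans ?_
    rw [mul_comm]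
    refine Nat.mul_le_mul (by omega) ?_
    refine (hY _).trans (Nat.pow_le_pow_right two_pos ?_)
    rw [hWW, Nat.sub_sub]
  | RTh b v =>
    obtain ⟨e1, e0, -⟩ := hd'
    simp only [Desc.lo, Desc.hi, Desc.Ip] at *
    subst e1
    obtain ⟨a', κ', -, rfl⟩ := zoneOf_reg hZ' e0
    refine (same_RTh (hX.P p) hg hv ha (hX.mTTh _ he)).trans ?_
    rw [mul_comm]
    refine Nat.mul_le_mul (by omega) ?_
    refine (hY _).trans (Nat.pow_le_pow_right two_pos ?_)
    rw [hWW, Nat.sub_sub]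

/-- zones of `P` type -/
lemma zone_P (hW : ∀ e, C.W e = CC c ^ e) (hP : ∀ p, PCode (C.X p) (C.P p)) {t : ℕ} {d : Desc}
    {r0 r1 : Reg} (hd : IsDesc c t d r0 r1) (hp : d.IsP) {Z : Zone} (hZ : ZoneOf C r0 r1 Z) :
    Z.top = d.hi c ∧ Zone.Ok Z ∧ r1.top C = d.hi c ∧
    ((∃ g e, d = .P g e ∧ ∃ a κ, a < 2 ^ g ∧ Z = zreg C (.P (pidx c g) g e) a κ ∧
      PRep (C.X (pidx c g)) (C.P (pidx c g)) g (e - g) (a + 2 ^ g * κ) Z.S) ∨
     (∃ g b, d = .PT g b ∧ ∃ a κ, a < 2 ^ g ∧ Z = zreg C (.PT (pidx c g) (ep c b) g b) a κ ∧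
      PRep (C.X (pidx c g)) (C.P (pidx c g)) g (b - g) (a + 2 ^ g * κ) Z.S)) := by
  have hWW : ∀ s, C.W (ep c s) = Wd c s := fun s => hW _
  cases d with
  | P g e =>
    obtain ⟨e1, e0, h3, -⟩ := hd
    subst e1
    obtain ⟨a, κ, ha, rfl⟩ := zoneOf_reg hZ e0
    exact ⟨rfl, zreg_ok C _ h3.le ha, rfl, Or.inl ⟨g, e, rfl, a, κ, ha, rfl, zP_rep C⟩⟩
  | PT g b =>
    obtain ⟨e1, e0, h3, -⟩ := hd
    subst e1
    obtain ⟨a, κ, ha, rfl⟩ := zoneOf_reg hZ e0
    have e2 : (Reg.PT (pidx c g) (ep c b) g b).top C = b + Wd c b := by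
      simp only [Reg.top, hWW]
    refine ⟨e2, zreg_ok C _ ?_ ha, e2, Or.inr ⟨g, b, rfl, a, κ, ha, rfl, zPT_rep C (hP _) h3⟩⟩
    rw [e2]
    simp only [Reg.bot]
    omega
  | RS _ _ _ => exact hp.elim
  | R _ _ => exact hp.elim
  | RT _ _ => exact hp.elim
  | RTh _ _ => exact hp.elim

/-- (TRIV) against an `R` zone of `K'` -/
lemma farOK_triv {K K' : ℕ} (hc : 3 ≤ c) (hKK : K' + gth c K ≤ K) {d' : Desc}
    {r0 r1 r0' r1' : Reg}
    (hcard : ∀ Z', ZoneOf C r0' r1' Z' → Z'.S.card ≤ 2 ^ ((d'.hi c - d'.lo) / 2))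
    (hd' : IsDesc c K' d' r0' r1') (hR' : d'.IsR)
    (hok : ∀ Z, ZoneOf C r0 r1 Z → Zone.Ok Z) (hal : r1.top C ≤ d'.hi c) (hK' : d'.hi c ≤ K')
    (x : ℕ) (hx : r1.top C - d'.lo ≤ x) (hxD : (10 * CC c + 5) * x ≤ 10 * CC c * (K - K')) :
    FarOK C c K K' r0 r1 r0' r1' := by
  have htop := desc_top (C := C) hd' hR'
  have hC5 : 5 ≤ CC c := le_trans (by norm_num) (Nat.pow_le_pow_right (n := 2) (by norm_num) hc)
  refine ⟨1 * 2 ^ ((d'.hi c - d'.lo) / 2), ?_, ?_⟩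
  · intro n Z Z' hZ hZ'
    have h1 := zoneOf_top hZ
    have h2 := zoneOf_top hZ'
    rw [one_mul]
    refine (zcons_le_right (hok Z hZ) (by rw [h1]; omega) (by rw [h2, htop]; exact hK')
      (by rw [h1, h2, htop]; exact hal)).trans ?_
    exact hcard Z' hZ'
  · refine num_triv (x := x) hC5 hKK (Nat.one_le_two_pow) hxD ?_
      (phiV_eq_of_le (by omega) (by omega) (by rw [htop]; exact hK'))
    rw [htop]
    have h2 : (((d'.hi c - d'.lo) / 2 : ℕ) : ℝ) ≤ ((d'.hi c - d'.lo : ℕ) : ℝ) / 2 := by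
      have := natdiv_le (d'.hi c - d'.lo) 2; push_cast at this; exact this
    have h3 : (r1.top C : ℝ) ≤ d'.hi c := by exact_mod_cast hal
    have h4 : (((d'.hi c - d'.lo : ℕ) : ℝ)) + r1.top C ≤ d'.hi c + x := by
      have : (d'.hi c - d'.lo) + r1.top C ≤ d'.hi c + x := by omega
      exact_mod_cast this
    rw [abs_of_nonpos (by linarith)]
    linarith

/-- the final numbers of the crossings -/
lemma farOK_cross {K K' : ℕ} (hc : 3 ≤ c) (hKK : K' + gth c K ≤ K) {d' : Desc}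
    {r0 r1 r0' r1' : Reg} (hd' : IsDesc c K' d' r0' r1') (hR' : d'.IsR)
    (hal : r1.top C ≤ d'.hi c) (hK' : d'.hi c ≤ K') {M : ℕ}
    (hM : 2 * M ≤ 2 ^ (gth c K / (4 * CC c)))
    (hxD : (10 * CC c + 9) * (r1.top C - d'.Ip c) ≤ 10 * CC c * (K - K'))
    (hN : ∀ n Z Z', ZoneOf C r0 r1 Z → ZoneOf C r0' r1' Z' →
      (zcons K K' n Z Z').card ≤ (2 * M) * 2 ^ ((d'.hi c - d'.Ip c) / 2)) :
    FarOK C c K K' r0 r1 r0' r1' := by
  have htop := desc_top (C := C) hd' hR'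
  have hC5 : 5 ≤ CC c := le_trans (by norm_num) (Nat.pow_le_pow_right (n := 2) (by norm_num) hc)
  refine ⟨(2 * M) * 2 ^ ((d'.hi c - d'.Ip c) / 2), hN, ?_⟩
  refine num_main (x := r1.top C - d'.Ip c) hC5 hKK hM hxD ?_
      (phiV_eq_of_le (by omega) (by omega) (by rw [htop]; exact hK'))
  rw [htop]
  have h2 : (((d'.hi c - d'.Ip c) / 2 : ℕ) : ℝ) ≤ ((d'.hi c - d'.Ip c : ℕ) : ℝ) / 2 := by
    have := natdiv_le (d'.hi c - d'.Ip c) 2; push_cast at this; exact this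
  have h3 : (r1.top C : ℝ) ≤ d'.hi c := by exact_mod_cast hal
  have h4 : (((d'.hi c - d'.Ip c : ℕ) : ℝ)) + r1.top C ≤ d'.hi c + (r1.top C - d'.Ip c : ℕ) := by
    have : (d'.hi c - d'.Ip c) + r1.top C ≤ d'.hi c + (r1.top C - d'.Ip c) := by omega
    exact_mod_cast this
  rw [abs_of_nonpos (by linarith)]
  linarith

end

end Pool.Agent.Helper16.ETX
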