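import Mathlib
import Pool.Agent.Helper16.ETX.X1

/-!
# E-T (MP_12a1af_nt), project T*: far pairs, a `P` run of `K` against an `R` zone of `K'`, theorem
-/

open Finset

namespace Pool.Agent.Helper16.ETX

open Pool.Agent.ETS
open Pool.Agent.ETS.RC (RBase zoneOf_top zoneOf_reg desc_top card_zone_R)
open Pool.Agent.Helper29.ETK (Kid kid wb ep Wd av ab ag ak CC Hb wcomp gth j0 lg)
open Pool.Agent.ETP (isPT phiV)
open Pool.Agent.Helper5.ETP

variable {c : ℕ}

lemma add_le_of_dvd {w a b : ℕ} (h1 : w ∣ a) (h2 : w ∣ b) (h : a < b) : a + w ≤ b := by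
  have := Nat.le_of_dvd (by omega) (Nat.dvd_sub h2 h1)
  omega

lemma Wd_dvd {a b : ℕ} (h : a ≤ b) : Wd c a ∣ Wd c b :=
  pow_dvd_pow _ (Nat.div_le_div_right (Nat.log_mono_right h))

lemma ep_ge {b t : ℕ} (hc : 1 ≤ c) (ht : CC c ^ 64 ≤ t) (hb : t ≤ CC c ^ 4 * b) :
    20 ≤ ep c b ∧ 0 < b := by
  have hC : 1 < CC c := Nat.one_lt_two_pow (by omega)
  have h1 : CC c ^ 4 * CC c ^ 60 ≤ CC c ^ 4 * b := by
    rw [← pow_add]
    exact ht.trans hb
  have h2 : CC c ^ 60 ≤ b := Nat.le_of_mul_le_mul_left h1 (by positivity)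
  have h3 : 0 < b := lt_of_lt_of_le (by positivity) h2
  refine ⟨?_, h3⟩
  have h4 : 60 ≤ lg c b := Nat.le_log_of_pow_le hC h2
  unfold ep
  omega

/-- position of a block -/
lemma block_facts {t : ℕ} (hc : 1 ≤ c) (Hs : KidSize c t) (ht : CC c ^ 64 ≤ t) {d' : Desc}
    {r0' r1' : Reg} (hd' : IsDesc c t d' r0' r1') (hB' : IsB d') :
    20 ≤ ep c d'.lo ∧ 0 < d'.lo ∧ Wd c d'.lo ∣ d'.lo ∧ d'.lo + Wd c d'.lo ≤ d'.hi c := by
  cases d' with
  | P g e => exact hB'.elim
  | PT g b => exact hB'.elim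
  | R b v => exact hB'.elim
  | RS g b v =>
    obtain ⟨-, -, -, h1, h2, h3, h4, -⟩ := hd'
    simp only [Desc.lo, Desc.hi]
    have hwd : 0 < Wd c b := pow_pos (by unfold CC; positivity) _
    obtain ⟨h5, -, -, h6⟩ := Hs.PT g b g (by omega) (h4 g le_rfl (by omega))
    obtain ⟨h7, h8⟩ := ep_ge hc ht h6
    exact ⟨h7, h8, h5, h2⟩
  | RT b v =>
    obtain ⟨-, -, h1, h2, h3, h4⟩ := hd'
    simp only [Desc.lo, Desc.hi]
    have hk := h3 b le_rfl h1
    have hb0 : 0 < b := by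
      rcases Nat.eq_zero_or_pos b with h0 | h0
      · rw [h0] at hk
        exact absurd hk (Hs.z v).2
      · exact h0
    have hcut : KCut c t b := by
      right; right
      rcases h4 with h4 | h4
      · omega
      · rw [hk]; exact h4
    obtain ⟨h5, h6⟩ := Hs.RT v b (by omega) hk hcut
    obtain ⟨h7, -⟩ := ep_ge hc ht (Hs.low b hb0 (by omega) hcut)
    exact ⟨h7, hb0, h5, add_le_of_dvd h5 h6 h1⟩
  | RTh b v =>
    obtain ⟨-, -, h1, h2, h3, h4⟩ := hd'
    simp only [Desc.lo, Desc.hi]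
    have hk := h3 b le_rfl h1
    have hb0 : 0 < b := by
      rcases Nat.eq_zero_or_pos b with h0 | h0
      · rw [h0] at hk
        exact absurd hk (Hs.z v).1
      · exact h0
    have hcut : KCut c t b := by
      right; right
      rcases h4 with h4 | h4
      · omega
      · rw [hk]; exact h4
    obtain ⟨h5, h6⟩ := Hs.RTh v b (by omega) hk hcut
    obtain ⟨h7, -⟩ := ep_ge hc ht (Hs.low b hb0 (by omega) hcut)
    exact ⟨h7, hb0, h5, add_le_of_dvd h5 h6 h1⟩

/-- a block inside a `P` run -/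
lemma align_P {t : ℕ} (Hs : KidSize c t) {g e b' : ℕ} {r0 r1 : Reg}
    (hd : IsDesc c t (.P g e) r0 r1) (h1 : g ≤ b') (h2 : b' < e) (hdvd : Wd c b' ∣ b') :
    b' + Wd c b' ≤ e ∧ (g = 0 ∨ ep c g = ep c b') := by
  obtain ⟨-, -, h3, h4, h5, h6⟩ := hd
  have hk := h5 b' h1 h2
  have hcut : KCut c t e := by
    right
    rcases h6 with h6 | h6
    · exact Or.inl h6
    · right
      rw [h5 (e-1) (by omega) (by omega)]
      exact fun h => h6 h.symm
  obtain ⟨h7, -⟩ := Hs.P g b' (by omega) hk e h2 h4 hcut (fun s hs hs' => h5 s (by omega) hs')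
  refine ⟨add_le_of_dvd hdvd ((Wd_dvd (by omega)).trans h7) h2, ?_⟩
  exact Hs.ep g b' (by omega) (Or.inl hk)

/-- a block inside a `PT` run -/
lemma align_PT {t : ℕ} (Hs : KidSize c t) {g b b' : ℕ} {r0 r1 : Reg}
    (hd : IsDesc c t (.PT g b) r0 r1) (h1 : g ≤ b') (h2 : b' < b + Wd c b)
    (hdvd : Wd c b' ∣ b') :
    (b' = b ∨ b' + Wd c b' ≤ b) ∧ (g = 0 ∨ ep c g = ep c b') := by
  obtain ⟨-, -, h3, h4, h5, h6, -⟩ := hd
  have hk := h6 b' h1 h2
  obtain ⟨h7, -⟩ := Hs.PT g b b' (by omega) hk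
  refine ⟨?_, Hs.ep g b' (by omega) (Or.inr ⟨b, hk⟩)⟩
  rcases lt_trichotomy b' b with h | h | h
  · right
    exact add_le_of_dvd hdvd ((Wd_dvd h.le).trans h7) h
  · exact Or.inl h
  · exfalso
    have := add_le_of_dvd h7 ((Wd_dvd h.le).trans hdvd) h
    omega

/-- arithmetic of the far motion -/
lemma triv_arith {C W x D l q : ℕ} (hC : 1 ≤ C) (hl : 50 * (C * W) < l) (hq : q < (l + 1) / 2)
    (hx : l ≤ q + (x + W)) (h : (10 * C + 9) * x ≤ 10 * C * D) :
    (10 * C + 5) * (x + W) ≤ 10 * C * D := by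
  have h0 : W ≤ C * W := Nat.le_mul_of_pos_left _ hC
  have h1 : 24 * (C * W) ≤ x := by omega
  have h2 : (10 * C + 5) * (x + W) = (10 * C + 5) * x + 10 * (C * W) + 5 * W := by ring
  have h3 : (10 * C + 9) * x = (10 * C + 5) * x + 4 * x := by ring
  omega

/-- for anchor `0` the known part is long -/
lemma long_of_zero {b : ℕ} (hc : 20 ≤ c) (he : 20 ≤ ep c b) (hb : 0 < b) :
    50 * (CC c * Wd c b) < b := by
  have hC : 2 ^ 20 ≤ CC c := Nat.pow_le_pow_right (by norm_num) hc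
  have h1 : CC c ^ lg c b ≤ b := Nat.pow_log_le_self _ (by omega)
  have h2 : CC c ^ (ep c b + 3) ≤ CC c ^ lg c b := by
    refine Nat.pow_le_pow_right (by omega) ?_
    have : 3 * ep c b ≤ lg c b := by unfold ep; omega
    omega
  have h3 : CC c ^ (ep c b + 3) = CC c * CC c * (CC c * Wd c b) := by
    unfold Wd
    rw [pow_add]; ring
  have h4 : 0 < CC c * Wd c b := by
    have : 0 < Wd c b := pow_pos (by omega) _
    positivity
  have h5 : 50 * (CC c * Wd c b) < CC c * CC c * (CC c * Wd c b) := by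
    refine Nat.mul_lt_mul_of_pos_right ?_ h4
    nlinarith
  omega

/-- the two ways to bound the number of block digits, or the motion is long -/
lemma qpb2_or {C : Codes} {B : ℕ → ℕ} (hX : CrossCodes C c B) (hc : 20 ≤ c) {g b' l : ℕ}
    (he : 20 ≤ ep c b') (hb0 : 0 < b') (hg : g ≤ b') (hl : b' - g + Wd c b' ≤ l)
    (hep : g = 0 ∨ ep c g = ep c b') :
    QPB2 C (pidx c g) (ep c b') l (b' - g) (B (ep c b')) ∨
      (50 * (CC c * Wd c b') < l ∧ b' - g < (l + 1) / 2) := by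
  have hq : b' - g + C.W (ep c b') ≤ l := by rw [hX.W]; exact hl
  by_cases h1 : l ≤ 50 * (CC c * Wd c b')
  · left
    have hg0 : g ≠ 0 := by
      intro h0
      have := long_of_zero hc he hb0
      omega
    have hp : pidx c g = ep c b' + 1 := by
      unfold pidx
      rw [if_neg hg0]
      rcases hep with h | h
      · exact absurd h hg0
      · rw [h]
    rw [hp]
    refine qpb2_short hX he hq (h1.trans (le_of_eq ?_))
    unfold Wd
    rw [pow_succ]; ring
  · by_cases h2 : (l + 1) / 2 ≤ b' - g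
    · exact Or.inl (qpb2_low hX he hq h2)
    · exact Or.inr ⟨by omega, by omega⟩

/-- all zones are below the window -/
lemma hi_le {t : ℕ} {d : Desc} {r0 r1 : Reg} (hd : IsDesc c t d r0 r1) : d.hi c ≤ wb c t := by
  cases d with
  | P g e => exact hd.2.2.2.1
  | PT g b =>
    obtain ⟨-, -, -, h1, h2, -⟩ := hd
    exact h1.trans h2
  | RS g b v => exact hd.2.2.2.2.2.1
  | R b v => exact hd.2.2.2.1
  | RT b v => exact hd.2.2.2.1
  | RTh b v => exact hd.2.2.2.1

/-- number of values of an `R` zone -/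
lemma card_R {C : Codes} {B : ℕ → ℕ} (hX : CrossCodes C c B) {t : ℕ} (hc : 1 ≤ c)
    (Hs : KidSize c t) (ht : CC c ^ 64 ≤ t) {d : Desc} {r0 r1 : Reg} (hd : IsDesc c t d r0 r1)
    (hR : d.IsR) {Z : Zone} (hZ : ZoneOf C r0 r1 Z) : Z.S.card ≤ 2 ^ ((d.hi c - d.lo) / 2) := by
  by_cases hB : IsB d
  · obtain ⟨h1, h2, h3, h4⟩ := block_facts hc Hs ht hd hB
    refine card_zone_R (hX.base _ h1) (hX.W _) hd hR ?_ hZ
    cases d <;> first | exact h4 | exact hB.elim
  · cases d with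
    | P _ _ => exact hR.elim
    | PT _ _ => exact hR.elim
    | RS _ _ _ => exact absurd trivial hB
    | RT _ _ => exact absurd trivial hB
    | RTh _ _ => exact absurd trivial hB
    | R b v =>
      obtain ⟨h1, h0, -⟩ := hd
      simp only [Desc.lo, Desc.hi]
      subst h1
      obtain ⟨a, κ, -, rfl⟩ := zoneOf_reg hZ h0
      refine (zreg_card_le C _ _ _).trans ?_
      simp only [Reg.V]
      rw [(hX.base 20 le_rfl).hY]
      exact RC.card_Yq_le _

/-- **(X1)** a `P` run of `K` against an `R` zone of `K'` which begins above the anchor and ends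
above the run. -/
theorem X1 {C : Codes} {B : ℕ → ℕ} (hX : CrossCodes C c B) (hc : 20 ≤ c) {K K' : ℕ}
    (hKK : K' + gth c K ≤ K) (hK1 : CC c ^ 64 ≤ K')
    (hB : ∀ s ≤ K, 20 ≤ ep c s → 2 * B (ep c s) ≤ 2 ^ (gth c K / (4 * CC c)))
    (Hs : KidSize c K) (Hs' : KidSize c K') (hF : FarKin c K K')
    {d d' : Desc} {r0 r1 r0' r1' : Reg} (hd : IsDesc c K d r0 r1) (hd' : IsDesc c K' d' r0' r1')
    (hP : d.IsP) (hR' : d'.IsR) (hlo : d.lo ≤ d'.lo) (hhi : d.hi c ≤ d'.hi c) :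
    FarOK C c K K' r0 r1 r0' r1' := by
  have hC1 : 1 ≤ CC c := Nat.one_le_two_pow
  have hK' : d'.hi c ≤ K' := (hi_le hd').trans hF.wbK'
  have hF1 := hF.F1 d d' ⟨r0, r1, hd⟩ ⟨r0', r1', hd'⟩ hP hR' hlo
  have hcard : ∀ Z', ZoneOf C r0' r1' Z' → Z'.S.card ≤ 2 ^ ((d'.hi c - d'.lo) / 2) :=
    fun Z' hZ' => card_R hX (by omega) Hs' hK1 hd' hR' hZ'
  have hz : ∀ Z, ZoneOf C r0 r1 Z → _ := fun Z hZ => zone_P hX.W hX.P hd hP hZ
  have hok : ∀ Z, ZoneOf C r0 r1 Z → Zone.Ok Z := fun Z hZ => (hz Z hZ).2.1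
  have htop : r1.top C = d.hi c := by
    cases d with
    | P g e => obtain ⟨h, -⟩ := hd; rw [h]; rfl
    | PT g b =>
      obtain ⟨h, -⟩ := hd
      rw [h]
      show b + C.W (ep c b) = b + Wd c b
      rw [hX.W]; rfl
    | RS _ _ _ => exact hP.elim
    | R _ _ => exact hP.elim
    | RT _ _ => exact hP.elim
    | RTh _ _ => exact hP.elim
  have htriv : ∀ x, d.hi c - d'.lo ≤ x → (10 * CC c + 5) * x ≤ 10 * CC c * (K - K') →
      FarOK C c K K' r0 r1 r0' r1' := fun x h1 h2 =>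
    farOK_triv (by omega) hKK hcard hd' hR' hok (by rw [htop]; exact hhi) hK' x
      (by rw [htop]; exact h1) h2
  -- disjoint
  rcases Nat.lt_or_ge d'.lo (d.hi c) with hlt | hge
  swap
  · exact htriv 0 (by omega) (by simp)
  by_cases hBl : IsB d'
  swap
  · -- plain
    have hIp : d'.Ip c = d'.lo := by
      cases d' <;> first | rfl | exact hR'.elim | exact absurd trivial hBl
    rw [hIp] at hF1
    refine htriv _ le_rfl (le_trans (Nat.mul_le_mul_right _ (by omega)) hF1)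
  obtain ⟨he, hb0, hdvd, hble⟩ := block_facts (by omega) Hs' hK1 hd' hBl
  have hIp : d'.Ip c = d'.lo + Wd c d'.lo := by
    cases d' <;> first | rfl | exact hR'.elim | exact hBl.elim
  have hMB : 2 * B (ep c d'.lo) ≤ 2 ^ (gth c K / (4 * CC c)) := hB _ (by omega) he
  have hfin := fun hN => farOK_cross (C := C) (M := B (ep c d'.lo)) (r0 := r0) (r1 := r1)
    (show 3 ≤ c by omega) hKK hd' hR' (by rw [htop]; exact hhi) hK' hMB
    (by rw [htop]; exact hF1) hN
  rw [hIp] at hF1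
  -- long motion
  have hlong : ∀ l, 50 * (CC c * Wd c d'.lo) < l → d'.lo - d.lo < (l + 1) / 2 →
      l + d.lo ≤ d.hi c → d'.lo + Wd c d'.lo ≤ d.hi c → FarOK C c K K' r0 r1 r0' r1' := by
    intro l h1 h2 h3 h4
    refine htriv (d.hi c - (d'.lo + Wd c d'.lo) + Wd c d'.lo) (by omega) ?_
    exact triv_arith hC1 h1 h2 (by omega) hF1
  cases d with
  | RS _ _ _ => exact hP.elim
  | R _ _ => exact hP.elim
  | RT _ _ => exact hP.elim
  | RTh _ _ => exact hP.elim
  | P g e =>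
    have e1 : (Desc.P g e).lo = g := rfl
    have e2 : (Desc.P g e).hi c = e := rfl
    rw [e1] at hlo hlong
    rw [e2] at hhi hlt hlong htop
    obtain ⟨h1, h2⟩ := align_P Hs hd hlo hlt hdvd
    rcases qpb2_or hX hc (l := e - g) he hb0 hlo (by omega) h2 with h3 | ⟨h3, h4⟩
    · apply hfin
      intro n Z Z' hZ hZ'
      obtain ⟨q1, q2, -, ⟨g', e', q3, a, κ, ha, q4, q5⟩ | ⟨g', b, q3, -⟩⟩ := hz Z hZ
      swap
      · cases q3
      cases q3
      rw [e2] at q1
      refine cross_count hX.W (hX.base _ he) hd' hBl hZ' q5 q2 (by omega) ?_ (by omega)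
        (by omega) h3 (by omega) hK'
      rw [hX.W]
      show d'.lo - g + Wd c d'.lo ≤ e - g
      omega
    · exact hlong (e - g) h3 h4 (by omega) h1
  | PT g b =>
    have e1 : (Desc.PT g b).lo = g := rfl
    have e2 : (Desc.PT g b).hi c = b + Wd c b := rfl
    rw [e1] at hlo hlong
    rw [e2] at hhi hlt hlong htop
    obtain ⟨h1, h2⟩ := align_PT Hs hd hlo hlt hdvd
    rcases h1 with h1 | h1
    · -- same block
      apply hfin
      intro n Z Z' hZ hZ'
      obtain ⟨q1, q2, -, ⟨g', e', q3, -⟩ | ⟨g', b', q3, a, κ, ha, q4, q5⟩⟩ := hz Z hZ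
      · cases q3
      cases q3
      rw [← h1] at q4
      subst q4
      exact same_count hX he hd' hBl hZ' hlo ha (by rw [hX.W]; exact hble) (by omega) hK'
    · rcases qpb2_or hX hc (l := b - g) he hb0 hlo (by omega) h2 with h3 | ⟨h3, h4⟩
      · apply hfin
        intro n Z Z' hZ hZ'
        obtain ⟨q1, q2, -, ⟨g', e', q3, -⟩ | ⟨g', b', q3, a, κ, ha, q4, q5⟩⟩ := hz Z hZ
        · cases q3
        cases q3
        rw [e2] at q1
        refine cross_count hX.W (hX.base _ he) hd' hBl hZ' q5 q2 (by omega) ?_ (by omega)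
          (by omega) h3 (by omega) hK'
        rw [hX.W]
        show d'.lo - g + Wd c d'.lo ≤ b - g
        omega
      · exact hlong (b - g) h3 h4 (by omega) (by omega)

/-- (X1) for the codes of `mk` -/
theorem X1_mk {TK : ℕ → Finset ℕ} (hc : 20 ≤ c) {K K' : ℕ}
    (hKK : K' + gth c K ≤ K) (hK1 : CC c ^ 64 ≤ K')
    (Hs : KidSize c K) (Hs' : KidSize c K') (hF : FarKin c K K')
    {d d' : Desc} {r0 r1 r0' r1' : Reg} (hd : IsDesc c K d r0 r1) (hd' : IsDesc c K' d' r0' r1')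
    (hP : d.IsP) (hR' : d'.IsR) (hlo : d.lo ≤ d'.lo) (hhi : d.hi c ≤ d'.hi c) :
    FarOK (Helper83.ET.mk (CC c) TK) c K K' r0 r1 r0' r1' := by
  refine X1 (crossCodes_mk hc TK) hc hKK hK1 ?_ Hs Hs' hF hd hd' hP hR' hlo hhi
  intro s hs he
  refine le_trans ?_ ((BTh_le hc hs he).trans (Nat.pow_le_pow_right two_pos ?_))
  · omega
  · exact Nat.div_le_div_left (by omega) (Nat.mul_pos (by norm_num) Nat.one_le_two_pow)

/-- the field `X1` of `FarCases` -/
theorem far_X1 {TK : ℕ → Finset ℕ} (hc : 20 ≤ c) {K K' : ℕ}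
    (hKK : K' + gth c K ≤ K) (hK1 : CC c ^ 64 ≤ K')
    (Hs : KidSize c K) (Hs' : KidSize c K') (hF : FarKin c K K') :
    ∀ d d' r0 r1 r0' r1', IsDesc c K d r0 r1 → IsDesc c K' d' r0' r1' → d.IsP → d'.IsR →
      d.lo ≤ d'.lo → d.hi c ≤ d'.hi c →
      FarOK (Helper83.ET.mk (CC c) TK) c K K' r0 r1 r0' r1' :=
  fun _ _ _ _ _ _ hd hd' hP hR' hlo hhi => X1_mk hc hKK hK1 Hs Hs' hF hd hd' hP hR' hlo hhi

end Pool.Agent.Helper16.ETX
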